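import Pool.Agent.H93.BL.Targets

namespace Pool.Agent.H5.BL.M0

open MeasureTheory Set Pool.Agent.H93.BL

lemma hbox {ι : Type} (P : Polygon ι) (i : ι) : MeasurableSet (P.box i) :=
  measurableSet_Ioo.prod measurableSet_Ioo

lemma hg : Measurable (fun z : ℝ × ℝ => ENNReal.ofReal (Real.cos z.2)) := by fun_prop

lemma key {ι : Type} (P : Polygon ι) (i : ι) (N : Set (ℝ × ℝ)) :
    P.liouville i N = 0 ↔ volume (N ∩ P.box i) = 0 := by
  unfold Polygon.liouville
  have hb := hbox P i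
  unfold Polygon.box at hb ⊢
  rw [withDensity_apply_eq_zero' hg.aemeasurable, Measure.restrict_apply' hb]
  have : {x : ℝ × ℝ | ENNReal.ofReal (Real.cos x.2) ≠ 0} ∩ N ∩
      (Ioo 0 (P.len i) ×ˢ Ioo (-(Real.pi / 2)) (Real.pi / 2)) =
      N ∩ (Ioo 0 (P.len i) ×ˢ Ioo (-(Real.pi / 2)) (Real.pi / 2)) := by
    ext z
    constructor
    · rintro ⟨⟨_, h2⟩, h3⟩; exact ⟨h2, h3⟩
    · rintro ⟨h2, h3⟩
      refine ⟨⟨?_, h2⟩, h3⟩
      have := Real.cos_pos_of_mem_Ioo h3.2
      simp only [mem_setOf_eq, ne_eq, ENNReal.ofReal_eq_zero, not_le]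
      exact this
  rw [this]

theorem m0 : T_M0 := by
  intro ι P i N
  have hb := hbox P i
  refine ⟨key P i N, ?_, ?_, ?_⟩
  · intro h
    rw [key] at h ⊢
    let e : (ℝ × ℝ) ≃ᵐ (ℝ × ℝ) := (MeasurableEquiv.refl ℝ).prodCongr (MeasurableEquiv.neg ℝ)
    have he : MeasurePreserving e volume volume :=
      (MeasurePreserving.id volume).prod (Measure.measurePreserving_neg volume)
    have h2 := he.measure_preimage_equiv (N ∩ P.box i)
    rw [h] at h2
    have h3 : {z : ℝ × ℝ | (z.1, -z.2) ∈ N} ∩ P.box i = e ⁻¹' (N ∩ P.box i) := by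
      ext z
      have e1 : e z = (z.1, -z.2) := rfl
      simp only [mem_inter_iff, mem_setOf_eq, mem_preimage, e1, Polygon.box, mem_prod, mem_Ioo]
      constructor
      · rintro ⟨h1, h2, h3, h4⟩; exact ⟨h1, h2, by linarith, by linarith⟩
      · rintro ⟨h1, h2, h3, h4⟩; exact ⟨h1, h2, by linarith, by linarith⟩
    rw [h3, h2]
  · intro hN
    unfold Polygon.liouville
    rw [withDensity_apply _ hN, Measure.restrict_restrict hN]
    rfl
  · unfold Polygon.liouville
    rw [withDensity_apply _ MeasurableSet.univ, Measure.restrict_univ]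
    calc ∫⁻ a in Ioo 0 (P.len i) ×ˢ Ioo (-(Real.pi / 2)) (Real.pi / 2),
          ENNReal.ofReal (Real.cos a.2)
        ≤ ∫⁻ _ in Ioo 0 (P.len i) ×ˢ Ioo (-(Real.pi / 2)) (Real.pi / 2), 1 := by
          apply lintegral_mono
          intro z
          simpa using ENNReal.ofReal_le_ofReal (Real.cos_le_one z.2)
      _ = volume (Ioo 0 (P.len i) ×ˢ Ioo (-(Real.pi / 2)) (Real.pi / 2)) := by
          rw [setLIntegral_const, one_mul]
      _ < ⊤ := by
          rw [Measure.volume_eq_prod, Measure.prod_prod, Real.volume_Ioo, Real.volume_Ioo]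
          exact ENNReal.mul_lt_top ENNReal.ofReal_lt_top ENNReal.ofReal_lt_top

end Pool.Agent.H5.BL.M0
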