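import Pool.Agent.H93.BL.Targets

namespace Pool.Agent.H5.BL.M4

open MeasureTheory Set Pool.Agent.H93.BL

/-- the derivative of the inverse branch -/
noncomputable def D (a d : ℝ) : (ℝ × ℝ) →L[ℝ] (ℝ × ℝ) :=
  (a • ContinuousLinearMap.fst ℝ ℝ ℝ + d • ContinuousLinearMap.snd ℝ ℝ ℝ).prod
    ((0 : ℝ) • ContinuousLinearMap.fst ℝ ℝ ℝ + (-1 : ℝ) • ContinuousLinearMap.snd ℝ ℝ ℝ)

lemma det_D (a d : ℝ) : (D a d).det = -a := by
  unfold D
  rw [← Matrix.toLin_finTwoProd_toContinuousLinearMap]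
  simp only [ContinuousLinearMap.det, LinearMap.coe_toContinuousLinearMap, LinearMap.det_toLin,
    Matrix.det_fin_two_of]
  ring

lemma deriv_H (α : ℝ) (g : ℝ → ℝ) (hg : ContDiff ℝ 1 g) (x : ℝ × ℝ)
    (hx : Real.cos (α - x.2) ≠ 0) : ∃ d : ℝ,
    HasFDerivAt (fun y : ℝ × ℝ => ((g y.2 - y.1 * Real.cos y.2) / Real.cos (α - y.2), α - y.2))
      (D (-(Real.cos x.2 / Real.cos (α - x.2))) d) x := by
  have h0 : HasDerivAt (fun φ : ℝ => Real.cos (α - φ))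
      (deriv (fun φ : ℝ => Real.cos (α - φ)) x.2) x.2 :=
    (by fun_prop : DifferentiableAt ℝ (fun φ : ℝ => Real.cos (α - φ)) x.2).hasDerivAt
  have hgd : DifferentiableAt ℝ g x.2 := (hg.differentiable (by norm_num)) x.2
  have ha : DifferentiableAt ℝ (fun φ : ℝ => g φ / Real.cos (α - φ)) x.2 :=
    hgd.div (by fun_prop) hx
  have hb : DifferentiableAt ℝ (fun φ : ℝ => Real.cos φ / Real.cos (α - φ)) x.2 :=
    (by fun_prop : DifferentiableAt ℝ (fun φ : ℝ => Real.cos φ) x.2).div (by fun_prop) hx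
  have hsnd : HasFDerivAt (Prod.snd : ℝ × ℝ → ℝ) (ContinuousLinearMap.snd ℝ ℝ ℝ) x :=
    hasFDerivAt_snd
  have hfst : HasFDerivAt (Prod.fst : ℝ × ℝ → ℝ) (ContinuousLinearMap.fst ℝ ℝ ℝ) x :=
    hasFDerivAt_fst
  have h1 := ha.hasDerivAt.comp_hasFDerivAt x hsnd
  have h2 := hfst.mul (hb.hasDerivAt.comp_hasFDerivAt x hsnd)
  have h3 := h1.sub h2
  have h4 : HasFDerivAt (fun y : ℝ × ℝ => α - y.2) (-(ContinuousLinearMap.snd ℝ ℝ ℝ)) x :=
    hsnd.const_sub α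
  have h5 := h3.prodMk h4
  refine ⟨deriv (fun φ : ℝ => g φ / Real.cos (α - φ)) x.2 -
    x.1 * deriv (fun φ : ℝ => Real.cos φ / Real.cos (α - φ)) x.2, ?_⟩
  have e1 : (fun y : ℝ × ℝ => ((g y.2 - y.1 * Real.cos y.2) / Real.cos (α - y.2), α - y.2)) =
      fun y : ℝ × ℝ => (((((fun φ : ℝ => g φ / Real.cos (α - φ)) ∘ (Prod.snd : ℝ × ℝ → ℝ)) -
        (Prod.fst : ℝ × ℝ → ℝ) * ((fun φ : ℝ => Real.cos φ / Real.cos (α - φ)) ∘
          (Prod.snd : ℝ × ℝ → ℝ)) : ℝ × ℝ → ℝ)) y, α - y.2) := by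
    funext y
    simp only [Pi.sub_apply, Pi.mul_apply, Function.comp_apply]
    congr 1
    ring
  rw [e1]
  refine h5.congr_fderiv ?_
  unfold D
  apply ContinuousLinearMap.ext
  intro v
  simp only [ContinuousLinearMap.prod_apply, ContinuousLinearMap.sub_apply,
    ContinuousLinearMap.add_apply, ContinuousLinearMap.smul_apply, ContinuousLinearMap.neg_apply,
    ContinuousLinearMap.coe_fst', ContinuousLinearMap.coe_snd', smul_eq_mul, Function.comp_apply]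
  congr 1
  · ring
  · ring

theorem m4 : T_M0 → T_M2 → T_M3 → T_B3 → T_M4 := by
  intro hM0 hM2 hM3 hB3 ι _ P i j B hB
  obtain ⟨α, g, hg, hs⟩ := hM3 ι P i j
  set Q : Set (ℝ × ℝ) := {z' | ∃ z, P.Step (i, z) (j, z')} with hQ
  have hQo : IsOpen Q := (hM2 ι P i j).2
  set H : ℝ × ℝ → ℝ × ℝ :=
    fun y => ((g y.2 - y.1 * Real.cos y.2) / Real.cos (α - y.2), α - y.2) with hH
  have hHz : ∀ z z', P.Step (i, z) (j, z') → H z' = z := by
    intro z z' h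
    obtain ⟨h1, h2⟩ := hs z.1 z.2 z'.1 z'.2 h
    simp only [hH]
    rw [← h2, ← h1]
  have hQc : ∀ z' ∈ Q, 0 < Real.cos (α - z'.2) := by
    rintro z' ⟨z, h⟩
    have h1 := (hs z.1 z.2 z'.1 z'.2 h).1
    rw [← h1]
    exact P.cos_pos_of_phase h.1
  have hQc' : ∀ z' ∈ Q, 0 < Real.cos z'.2 := by
    rintro z' ⟨z, h⟩
    exact P.cos_pos_of_phase h.2.1
  set A : Set (ℝ × ℝ) := {z | ∃ z' ∈ B, P.Step (i, z) (j, z')} with hA
  have hAH : A = H '' (B ∩ Q) := by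
    ext z
    constructor
    · rintro ⟨z', hz', h⟩
      exact ⟨z', ⟨hz', z, h⟩, hHz z z' h⟩
    · rintro ⟨z', ⟨hz', z1, h⟩, rfl⟩
      refine ⟨z', hz', ?_⟩
      rw [hHz z1 z' h]; exact h
  have hinj : InjOn H (B ∩ Q) := by
    rintro x ⟨-, x1, hx⟩ y ⟨-, y1, hy⟩ hxy
    rw [hHz x1 x hx, hHz y1 y hy] at hxy
    subst hxy
    have := (hB3 ι P (i, x1) (j, x) (j, y)).1 hx hy
    exact (Prod.mk.inj this).2
  have hBQ : MeasurableSet (B ∩ Q) := hB.inter hQo.measurableSet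
  choose! d hd using fun (x : ℝ × ℝ) (hx : Real.cos (α - x.2) ≠ 0) => deriv_H α g hg x hx
  have hf' : ∀ x ∈ B ∩ Q, HasFDerivWithinAt H (D (-(Real.cos x.2 / Real.cos (α - x.2))) (d x))
      (B ∩ Q) x := fun x hx => (hd x (hQc x hx.2).ne').hasFDerivWithinAt
  have hAm : MeasurableSet A := by
    rw [hAH]
    exact measurable_image_of_fderivWithin hBQ hf' hinj
  have hAbox : A ∩ P.box i = A := by
    apply inter_eq_left.2
    rintro z ⟨z', -, h⟩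
    exact ⟨⟨h.1.1, h.1.2.1⟩, ⟨h.1.2.2.1, h.1.2.2.2⟩⟩
  have hQbox : B ∩ Q ∩ P.box j = B ∩ Q := by
    apply inter_eq_left.2
    rintro z' ⟨-, z, h⟩
    exact ⟨⟨h.2.1.1, h.2.1.2.1⟩, ⟨h.2.1.2.2.1, h.2.1.2.2.2⟩⟩
  rw [(hM0 ι P i A).2.2.1 hAm, (hM0 ι P j (B ∩ Q)).2.2.1 hBQ, hAbox, hQbox, hAH,
    lintegral_image_eq_lintegral_abs_det_fderiv_mul volume hBQ hf' hinj]
  apply setLIntegral_mono' hBQ
  intro x hx
  have h1 := hQc x hx.2
  have h2 := hQc' x hx.2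
  rw [det_D, neg_neg, abs_of_pos (div_pos h2 h1), ← ENNReal.ofReal_mul (div_pos h2 h1).le]
  apply ENNReal.ofReal_le_ofReal
  simp only [hH]
  rw [div_mul_cancel₀ _ h1.ne']

end Pool.Agent.H5.BL.M4
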