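import Pool.Agent.H93.BL.Targets

namespace Pool.Agent.H5.BL.M7

open MeasureTheory Set Pool.Agent.H93.BL

lemma exists_seq {α : Type} (R : α → α → Prop) (G : α → Prop)
    (h : ∀ y, G y → ∃ y', R y y' ∧ G y') (y : α) (hy : G y) :
    ∃ f : ℕ → α, f 0 = y ∧ ∀ n, R (f n) (f (n + 1)) ∧ G (f n) := by
  choose! s hs using h
  let f : ℕ → α := fun n => s^[n] y
  have hf : ∀ n, f (n + 1) = s (f n) := fun n => Function.iterate_succ_apply' s n y
  have hG : ∀ n, G (f n) := by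
    intro n
    induction n with
    | zero => exact hy
    | succ n ih => rw [hf]; exact (hs _ ih).2
  exact ⟨f, rfl, fun n => ⟨by rw [hf]; exact (hs _ (hG n)).1, hG n⟩⟩

lemma glue {α : Type} (R : α → α → Prop) (f g : ℕ → α) (h0 : f 0 = g 0)
    (hf : ∀ n, R (f n) (f (n + 1))) (hg : ∀ n, R (g (n + 1)) (g n)) :
    ∃ F : ℤ → α, F 0 = f 0 ∧ (∀ n, R (F n) (F (n + 1))) ∧
      ∀ n, (∃ m, F n = f m) ∨ (∃ m, F n = g m) := by
  refine ⟨fun n => match n with
    | Int.ofNat m => f m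
    | Int.negSucc m => g (m + 1), rfl, ?_, ?_⟩
  · intro n
    match n with
    | Int.ofNat m => exact hf m
    | Int.negSucc 0 =>
      have : Int.negSucc 0 + 1 = 0 := rfl
      rw [this]
      change R (g 1) (f 0)
      rw [h0]; exact hg 0
    | Int.negSucc (k + 1) =>
      have : Int.negSucc (k + 1) + 1 = Int.negSucc k := rfl
      rw [this]
      exact hg (k + 1)
  · intro n
    match n with
    | Int.ofNat m => exact Or.inl ⟨m, rfl⟩
    | Int.negSucc m => exact Or.inr ⟨m + 1, rfl⟩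

variable {ι : Type} (P : Polygon ι)

/-- forward preimages -/
def Rf (N : ι → Set (ℝ × ℝ)) : ℕ → ι → Set (ℝ × ℝ)
  | 0 => N
  | n + 1 => fun i => {z | ∃ z', P.Step (i, z) z' ∧ z'.2 ∈ Rf N n z'.1}

/-- backward preimages -/
def Rb (N : ι → Set (ℝ × ℝ)) : ℕ → ι → Set (ℝ × ℝ)
  | 0 => N
  | n + 1 => fun i => {z | ∃ z', P.Step z' (i, z) ∧ z'.2 ∈ Rb N n z'.1}

theorem m7 : T_M1 → T_M6 → T_M7 := by
  intro hM1 hM6 ι _ P N hN i
  let N' : ι → Set (ℝ × ℝ) := fun i =>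
    N i ∪ ({z | ¬ ∃ z', P.Step (i, z) z'} ∪ {z | ¬ ∃ z', P.Step z' (i, z)})
  have hN' : ∀ i, P.liouville i (N' i) = 0 := by
    intro i
    rw [measure_union_null_iff, measure_union_null_iff]
    exact ⟨hN i, (hM1 ι P i).1, (hM1 ι P i).2⟩
  have hRf : ∀ n i, P.liouville i (Rf P N' n i) = 0 := by
    intro n
    induction n with
    | zero => exact hN'
    | succ n ih => exact (hM6 ι P _ ih).1
  have hRb : ∀ n i, P.liouville i (Rb P N' n i) = 0 := by
    intro n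
    induction n with
    | zero => exact hN'
    | succ n ih => exact (hM6 ι P _ ih).2
  have hall : ∀ᵐ z ∂(P.liouville i), (∀ n, z ∉ Rf P N' n i) ∧ (∀ n, z ∉ Rb P N' n i) := by
    refine Filter.Eventually.and ?_ ?_
    · rw [ae_all_iff]
      intro n
      exact measure_eq_zero_iff_ae_notMem.1 (hRf n i)
    · rw [ae_all_iff]
      intro n
      exact measure_eq_zero_iff_ae_notMem.1 (hRb n i)
  filter_upwards [hall] with z hz
  obtain ⟨f, hf0, hf⟩ := exists_seq P.Step (fun y => ∀ n, y.2 ∉ Rf P N' n y.1) (by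
    intro y hy
    have h0 : y.2 ∉ N' y.1 := hy 0
    have h1 : ∃ z', P.Step (y.1, y.2) z' := by
      by_contra hc
      exact h0 (Or.inr (Or.inl hc))
    obtain ⟨z', hz'⟩ := h1
    exact ⟨z', hz', fun n hn => hy (n + 1) ⟨z', hz', hn⟩⟩) (i, z) hz.1
  obtain ⟨g, hg0, hg⟩ := exists_seq (fun a b => P.Step b a) (fun y => ∀ n, y.2 ∉ Rb P N' n y.1) (by
    intro y hy
    have h0 : y.2 ∉ N' y.1 := hy 0
    have h1 : ∃ z', P.Step z' (y.1, y.2) := by
      by_contra hc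
      exact h0 (Or.inr (Or.inr hc))
    obtain ⟨z', hz'⟩ := h1
    exact ⟨z', hz', fun n hn => hy (n + 1) ⟨z', hz', hn⟩⟩) (i, z) hz.2
  obtain ⟨F, hF0, hF1, hF2⟩ := glue P.Step f g (by rw [hf0, hg0]) (fun n => (hf n).1)
    (fun n => (hg n).1)
  refine ⟨F, by rw [hF0, hf0], fun n => ⟨hF1 n, ?_⟩⟩
  rcases hF2 n with ⟨m, hm⟩ | ⟨m, hm⟩
  · rw [hm]
    intro hc
    exact (hf m).2 0 (Or.inl hc)
  · rw [hm]
    intro hc
    exact (hg m).2 0 (Or.inl hc)

end Pool.Agent.H5.BL.M7
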