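import Pool.Agent.H88.BL.Targets

/-!
# Bernoulli convolutions near one: the window length (row WIN)
-/

set_option autoImplicit false

namespace Pool.Agent.H5.BL

open Pool.Agent.H88.BL

theorem exp_le_three {x : ℝ} (hx : x ≤ 1 / 99) : Real.exp (1 + x) ≤ 3 := by
  have h1 : Real.exp (1 + x) ≤ Real.exp (1 + 1 / 99) := Real.exp_le_exp.2 (by linarith)
  have h2 : Real.exp (1 + 1 / 99) = Real.exp 1 * Real.exp (1 / 99) := Real.exp_add _ _
  have h3 : Real.exp (1 / 99 : ℝ) ≤ 99 / 98 := by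
    have h4 := Real.add_one_le_exp (-(1 / 99) : ℝ)
    rw [Real.exp_neg] at h4
    have h5 : (0 : ℝ) < -(1 / 99) + 1 := by norm_num
    have h6 := (le_inv_comm₀ h5 (Real.exp_pos _)).1 h4
    refine h6.trans (le_of_eq ?_)
    norm_num
  have h7 := Real.exp_one_lt_d9
  have h8 := Real.exp_pos (1 / 99 : ℝ)
  rw [h2] at h1
  nlinarith

theorem pf_WIN : T_WIN := by
  refine ⟨99 / 100, by norm_num, fun t ht ht1 => ?_⟩
  have hh : 0 < 1 - t := by linarith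
  have hh1 : 1 - t < 1 / 100 := by linarith
  have htp : 0 < t := by linarith
  have hinv : 0 ≤ 1 / (1 - t) := by positivity
  have hN1 : ((⌊1 / (1 - t)⌋₊ : ℕ) : ℝ) ≤ 1 / (1 - t) := Nat.floor_le hinv
  have hN2 : 1 / (1 - t) < ((⌊1 / (1 - t)⌋₊ : ℕ) : ℝ) + 1 := Nat.lt_floor_add_one _
  have hN3 : 1 ≤ ⌊1 / (1 - t)⌋₊ := by
    refine Nat.le_floor ?_
    rw [Nat.cast_one, le_div_iff₀ hh]
    linarith
  have hNh : ((⌊1 / (1 - t)⌋₊ : ℕ) : ℝ) * (1 - t) ≤ 1 := (le_div_iff₀ hh).1 hN1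
  have hNh2 : 1 - (1 - t) ≤ ((⌊1 / (1 - t)⌋₊ : ℕ) : ℝ) * (1 - t) := by
    have h1 := (div_lt_iff₀ hh).1 hN2
    linarith
  have hexp : t ^ (⌊1 / (1 - t)⌋₊) =
      Real.exp (((⌊1 / (1 - t)⌋₊ : ℕ) : ℝ) * Real.log t) := by
    rw [Real.exp_nat_mul, Real.exp_log htp]
  refine ⟨⌊1 / (1 - t)⌋₊, ⟨htp, ht1, hN3, ?_, ?_⟩, hN1, by linarith⟩
  · have h1 := Real.one_sub_inv_le_log_of_pos htp
    have h2 : 1 - t⁻¹ = -((1 - t) / t) := by
      field_simp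
      ring
    have h3 : -(1 + 1 / 99) ≤ ((⌊1 / (1 - t)⌋₊ : ℕ) : ℝ) * Real.log t := by
      have h4 : ((⌊1 / (1 - t)⌋₊ : ℕ) : ℝ) * (-((1 - t) / t)) ≤
          ((⌊1 / (1 - t)⌋₊ : ℕ) : ℝ) * Real.log t := by
        refine mul_le_mul_of_nonneg_left ?_ (Nat.cast_nonneg _)
        rw [← h2]
        exact h1
      refine le_trans ?_ h4
      have h5 : ((⌊1 / (1 - t)⌋₊ : ℕ) : ℝ) * (-((1 - t) / t)) =
          -((((⌊1 / (1 - t)⌋₊ : ℕ) : ℝ) * (1 - t)) / t) := by ring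
      rw [h5]
      refine neg_le_neg ?_
      rw [div_le_iff₀ htp]
      linarith
    rw [hexp]
    refine le_trans ?_ (Real.exp_le_exp.2 h3)
    rw [Real.exp_neg, one_div]
    exact inv_anti₀ (Real.exp_pos _) (exp_le_three le_rfl)
  · have h1 := Real.log_le_sub_one_of_pos htp
    have h3 : ((⌊1 / (1 - t)⌋₊ : ℕ) : ℝ) * Real.log t ≤ -Real.log 2 := by
      have h4 : ((⌊1 / (1 - t)⌋₊ : ℕ) : ℝ) * Real.log t ≤
          ((⌊1 / (1 - t)⌋₊ : ℕ) : ℝ) * (t - 1) :=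
        mul_le_mul_of_nonneg_left h1 (Nat.cast_nonneg _)
      have h5 := Real.log_two_lt_d9
      nlinarith
    rw [hexp]
    refine (Real.exp_le_exp.2 h3).trans ?_
    rw [Real.exp_neg, Real.exp_log (by norm_num), one_div]

end Pool.Agent.H5.BL
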